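import Pool.Agent.helper1.SOL.SpecN
import Pool.Agent.helper57.SOL.VD1

/-!
# Row sol:VB1: the vertices of `Γ(B_n, k)`
-/

set_option autoImplicit false

namespace Pool.Agent.SOL

open Pool.Agent.helper54.SOG Finset

open scoped BigOperators

variable {n : ℕ}

theorem VB1_norm {a : Fin n → ℝ} (ha : a ∈ rootsB n) : ∑ i, a i * a i = 2 ∨ ∑ i, a i * a i = 1 := by
  rcases ha with ha | ⟨i, s, hs, rfl⟩
  · exact Or.inl (VD1_norm ha)
  · right
    rw [Finset.sum_eq_single i]
    · rw [Pi.single_eq_same]
      rcases hs with rfl | rfl <;> norm_num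
    · intro j _ hj
      rw [Pi.single_eq_of_ne hj, zero_mul]
    · intro h
      exact absurd (Finset.mem_univ i) h

theorem VB1_add {a b : Fin n → ℝ} (hab : ∑ i, a i * b i = 0) :
    ∑ i, (a + b) i * (a + b) i = ∑ i, a i * a i + ∑ i, b i * b i := by
  have : ∀ i, (a + b) i * (a + b) i = a i * a i + 2 * (a i * b i) + b i * b i := by
    intro i
    rw [Pi.add_apply]
    ring
  simp only [this, Finset.sum_add_distrib, ← Finset.mul_sum, hab]
  ring

theorem VB1_sub {a b : Fin n → ℝ} (hab : ∑ i, a i * b i = 0) :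
    ∑ i, (a - b) i * (a - b) i = ∑ i, a i * a i + ∑ i, b i * b i := by
  have : ∀ i, (a - b) i * (a - b) i = a i * a i - 2 * (a i * b i) + b i * b i := by
    intro i
    rw [Pi.sub_apply]
    ring
  simp only [this, Finset.sum_add_distrib, Finset.sum_sub_distrib, ← Finset.mul_sum, hab]
  ring

theorem VB1_orth {a b : Fin n → ℝ} (ha : a ∈ rootsD n) (hb : b ∈ rootsB n)
    (hab : ∑ i, a i * b i = 0) : a + b ≠ 0 ∧ a + b ∉ rootsB n ∧ a - b ∉ rootsB n := by
  have h1 := VB1_add hab
  have h2 := VB1_sub hab
  have h3 := VD1_norm ha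
  have h4 : 3 ≤ ∑ i, a i * a i + ∑ i, b i * b i := by
    rcases VB1_norm hb with h | h <;> rw [h, h3] <;> norm_num
  refine ⟨?_, ?_, ?_⟩
  · intro h0
    rw [h0] at h1
    simp only [Pi.zero_apply, mul_zero, Finset.sum_const_zero] at h1
    linarith
  · intro h0
    rcases VB1_norm h0 with h | h <;> linarith
  · intro h0
    rcases VB1_norm h0 with h | h <;> linarith

/-- deleting a coordinate -/
theorem VB1_tau {m : ℕ} (i : Fin (m + 1)) (c : Fin (m + 1) → ℝ) (hc : c i = 0) :
    c ∈ rootsD (m + 1) ↔ (fun j => c (i.succAbove j)) ∈ rootsD m := by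
  rw [mem_rootsD_iff, mem_rootsD_iff]
  have hcard : (sp (fun j => c (i.succAbove j))).card = (sp c).card := by
    rw [← Finset.card_map i.succAboveEmb]
    congr 1
    ext x
    rw [Finset.mem_map, mem_sp]
    constructor
    · rintro ⟨j, hj, rfl⟩
      rw [mem_sp] at hj
      exact hj
    · intro hx
      have hxi : x ≠ i := by
        rintro rfl
        exact hx hc
      obtain ⟨j, rfl⟩ := Fin.exists_succAbove_eq hxi
      exact ⟨j, mem_sp.2 hx, rfl⟩
  unfold UU
  rw [Set.mem_setOf_eq, Set.mem_setOf_eq, hcard]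
  refine and_congr_left (fun _ => ?_)
  constructor
  · intro h j
    exact h _
  · intro h x
    by_cases hx : x = i
    · rw [hx, hc]; exact Or.inl rfl
    · obtain ⟨j, rfl⟩ := Fin.exists_succAbove_eq hx
      exact h j

/-- an element of a strongly orthogonal set with a short root -/
theorem VB1_short {S : Finset (Fin n → ℝ)} (hS : IsSOS (rootsB n) S) {i : Fin n} {s : ℝ}
    (hs : s = 1 ∨ s = -1) (hu : Pi.single i s ∈ S) {a : Fin n → ℝ} (ha : a ∈ S)
    (hne : a ≠ Pi.single i s) : a ∈ rootsD n ∧ a i = 0 := by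
  obtain ⟨h1, h2, h3⟩ := hS.2 a ha _ hu hne
  rcases hS.1 a ha with hD | ⟨j, t, ht, rfl⟩
  · refine ⟨hD, ?_⟩
    by_contra h0
    obtain ⟨p, q, hpq, s', t', hs', ht', rfl⟩ := hD
    -- wlog
    have key : ∀ (p q : Fin n) (s' t' : ℝ), p ≠ q → (s' = 1 ∨ s' = -1) → (t' = 1 ∨ t' = -1) → i = p →
        (Pi.single p s' + Pi.single q t' + Pi.single i s : Fin n → ℝ) ∉ rootsB n →
        (Pi.single p s' + Pi.single q t' - Pi.single i s : Fin n → ℝ) ∉ rootsB n → False := by
      intro p q s' t' hpq hs' ht' hip g1 g2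
      subst hip
      by_cases hss : s' = s
      · apply g2
        have e : (Pi.single i s' + Pi.single q t' - Pi.single i s : Fin n → ℝ) = Pi.single q t' := by
          rw [hss]; abel
        rw [e]
        exact Or.inr ⟨q, t', ht', rfl⟩
      · have hss' : s' = -s := by
          rcases hs with rfl | rfl <;> rcases hs' with rfl | rfl
          · exact absurd rfl hss
          · rfl
          · norm_num
          · exact absurd rfl hss
        apply g1
        have e : (Pi.single i s' + Pi.single q t' + Pi.single i s : Fin n → ℝ) = Pi.single q t' := by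
          rw [hss', Pi.single_neg]; abel
        rw [e]
        exact Or.inr ⟨q, t', ht', rfl⟩
    by_cases hip : i = p
    · exact key p q s' t' hpq hs' ht' hip h2 h3
    · by_cases hiq : i = q
      · refine key q p t' s' (Ne.symm hpq) ht' hs' hiq ?_ ?_
        · rw [add_comm (Pi.single q t' : Fin n → ℝ)]; exact h2
        · rw [add_comm (Pi.single q t' : Fin n → ℝ)]; exact h3
      · apply h0
        rw [Pi.add_apply, Pi.single_eq_of_ne hip, Pi.single_eq_of_ne hiq, add_zero]
  · exfalso
    by_cases hji : j = i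
    · subst hji
      have hts : t ≠ s := by
        rintro rfl
        exact hne rfl
      apply h1
      have hts' : t = -s := by
        rcases hs with rfl | rfl <;> rcases ht with rfl | rfl
        · exact absurd rfl hts
        · rfl
        · norm_num
        · exact absurd rfl hts
      rw [hts', Pi.single_neg, neg_add_cancel]
    · apply h2
      exact Or.inl ⟨j, i, hji, t, s, ht, hs, rfl⟩

theorem VB1_fwd {S : Finset (Fin n → ℝ)} (hS : IsSOS (rootsB n) S) :
    ∃ x ∈ VB n S.card, cv x = ∑ a ∈ S, a := by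
  classical
  by_cases hsh : ∃ i : Fin n, ∃ s : ℝ, (s = 1 ∨ s = -1) ∧ Pi.single i s ∈ S
  · obtain ⟨i, s, hs, hu⟩ := hsh
    obtain ⟨m, rfl⟩ : ∃ m, n = m + 1 := ⟨n - 1, by have := i.pos; omega⟩
    set u : Fin (m + 1) → ℝ := Pi.single i s with hudef
    have hel : ∀ a ∈ S.erase u, a ∈ rootsD (m + 1) ∧ a i = 0 := by
      intro a ha
      exact VB1_short hS hs hu (Finset.mem_of_mem_erase ha) (Finset.ne_of_mem_erase ha)
    let τ : (Fin (m + 1) → ℝ) → (Fin m → ℝ) := fun a j => a (i.succAbove j)
    have hinj : Set.InjOn τ (S.erase u : Set (Fin (m + 1) → ℝ)) := by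
      intro a ha b hb hab
      funext x
      by_cases hx : x = i
      · rw [hx, (hel a ha).2, (hel b hb).2]
      · obtain ⟨j, rfl⟩ := Fin.exists_succAbove_eq hx
        exact congrFun hab j
    have hS'' : IsSOS (rootsD m) ((S.erase u).image τ) := by
      refine ⟨?_, ?_⟩
      · intro a' ha'
        obtain ⟨a, ha, rfl⟩ := Finset.mem_image.1 ha'
        exact (VB1_tau i a (hel a ha).2).1 (hel a ha).1
      · intro a' ha' b' hb' hne
        obtain ⟨a, ha, rfl⟩ := Finset.mem_image.1 ha'
        obtain ⟨b, hb, rfl⟩ := Finset.mem_image.1 hb'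
        have hab : a ≠ b := fun h => hne (by rw [h])
        obtain ⟨h1, h2, h3⟩ := hS.2 a (Finset.mem_of_mem_erase ha) b (Finset.mem_of_mem_erase hb) hab
        have hai := (hel a ha).2
        have hbi := (hel b hb).2
        have e1 : τ a + τ b = fun j => (a + b) (i.succAbove j) := rfl
        have e2 : τ a - τ b = fun j => (a - b) (i.succAbove j) := rfl
        refine ⟨?_, ?_, ?_⟩
        · intro h0
          apply h1
          funext x
          by_cases hx : x = i
          · rw [hx, Pi.add_apply, hai, hbi, add_zero]; rfl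
          · obtain ⟨j, rfl⟩ := Fin.exists_succAbove_eq hx
            exact congrFun h0 j
        · rw [e1, ← VB1_tau i (a + b) (by rw [Pi.add_apply, hai, hbi, add_zero])]
          exact fun h => h2 (Or.inl h)
        · rw [e2, ← VB1_tau i (a - b) (by rw [Pi.sub_apply, hai, hbi, sub_zero])]
          exact fun h => h3 (Or.inl h)
    obtain ⟨x, hx, hxs⟩ := VD1_fwd hS''
    have hcard : ((S.erase u).image τ).card = S.card - 1 := by
      rw [Finset.card_image_of_injOn hinj, Finset.card_erase_of_mem hu]
    have hpos : 0 < S.card := Finset.card_pos.2 ⟨u, hu⟩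
    rw [hcard] at hx
    obtain ⟨σ, hσ, hσs⟩ : ∃ σ : ℤ, (σ = 1 ∨ σ = -1) ∧ ((σ : ℤ) : ℝ) = s := by
      rcases hs with rfl | rfl
      · exact ⟨1, Or.inl rfl, by norm_num⟩
      · exact ⟨-1, Or.inr rfl, by norm_num⟩
    have hσa : |σ| = 1 := by rcases hσ with rfl | rfl <;> norm_num
    have hσσ : σ * σ = 1 := by rcases hσ with rfl | rfl <;> norm_num
    refine ⟨Fin.insertNth (α := fun _ => ℤ) i σ x, ⟨?_, ?_, ?_⟩, ?_⟩
    · intro y
      by_cases hy : y = i
      · rw [hy, Fin.insertNth_apply_same, hσa]; norm_num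
      · obtain ⟨j, rfl⟩ := Fin.exists_succAbove_eq hy
        rw [Fin.insertNth_apply_succAbove]
        exact hx.1 j
    · right
      unfold dp
      rw [Fin.sum_univ_succAbove _ i]
      simp only [Fin.insertNth_apply_same, Fin.insertNth_apply_succAbove]
      have h2 : ∑ j, x j * x j = 2 * ((S.card - 1 : ℕ) : ℤ) := hx.2.1
      rw [h2, hσσ]
      push_cast [Nat.cast_sub hpos]
      ring
    · unfold l1
      rw [Fin.sum_univ_succAbove _ i]
      simp only [Fin.insertNth_apply_same, Fin.insertNth_apply_succAbove]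
      have h2 : ∑ j, |x j| ≤ (m : ℤ) := hx.2.2
      rw [hσa]
      push_cast
      linarith
    · rw [Finset.sum_image hinj] at hxs
      rw [← Finset.add_sum_erase S (fun a => a) hu]
      funext y
      by_cases hy : y = i
      · rw [hy]
        simp only [cv, Fin.insertNth_apply_same, Pi.add_apply, Finset.sum_apply]
        rw [Finset.sum_eq_zero (fun a ha => (hel a ha).2), add_zero, hσs, hudef, Pi.single_eq_same]
      · obtain ⟨j, rfl⟩ := Fin.exists_succAbove_eq hy
        simp only [cv, Fin.insertNth_apply_succAbove, Pi.add_apply, Finset.sum_apply]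
        rw [hudef, Pi.single_eq_of_ne hy, zero_add]
        have h3 := congrFun hxs j
        simp only [cv, Finset.sum_apply] at h3
        exact h3
  · have hS' : IsSOS (rootsD n) S := by
      refine ⟨?_, ?_⟩
      · intro a ha
        rcases hS.1 a ha with h | ⟨i, s, hs, rfl⟩
        · exact h
        · exact absurd ⟨i, s, hs, ha⟩ hsh
      · intro a ha b hb hab
        obtain ⟨h1, h2, h3⟩ := hS.2 a ha b hb hab
        exact ⟨h1, fun h => h2 (Or.inl h), fun h => h3 (Or.inl h)⟩
    obtain ⟨x, hx, hxs⟩ := VD1_fwd hS'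
    exact ⟨x, ⟨hx.1, Or.inl hx.2.1, hx.2.2⟩, hxs⟩

theorem VB1_exists_one (x : Vec n) (hx : ∀ i, |x i| ≤ 2) (k : ℤ) (hdp : dp x x = 2 * k - 1) :
    ∃ i, |x i| = 1 := by
  by_contra h
  push Not at h
  have h2 : (2 : ℤ) ∣ dp x x := by
    unfold dp
    refine Finset.dvd_sum (fun i _ => ?_)
    have h3 : x i = 0 ∨ x i = 2 ∨ x i = -2 := by
      have h4 := hx i
      have h5 := h i
      rw [abs_le] at h4
      have h6 : x i ≠ 1 := fun h7 => h5 (by rw [h7]; norm_num)
      have h7 : x i ≠ -1 := fun h8 => h5 (by rw [h8]; norm_num)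
      omega
    rcases h3 with h3 | h3 | h3 <;> rw [h3] <;> decide
  omega

theorem VB1 (hVD1 : VD1_stmt) : VB1_stmt := by
  classical
  intro n k
  ext v
  constructor
  · rintro ⟨S, hc, hS, rfl⟩
    obtain ⟨x, hx, hx'⟩ := VB1_fwd hS
    rw [hc] at hx
    exact ⟨x, hx, hx'⟩
  · rintro ⟨x, hx, rfl⟩
    rcases hx.2.1 with hdp | hdp
    · obtain ⟨S, h1, h2, h3, h4⟩ := VD1_back k Finset.univ x
        (fun i hi => absurd (Finset.mem_univ i) hi) hx.1 hdp
        (by rw [Finset.card_univ, Fintype.card_fin]; exact hx.2.2)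
      refine ⟨S, h1, ⟨fun a ha => Or.inl (h2 a ha).1, fun a ha b hb hab => ?_⟩, h4⟩
      exact VB1_orth (h2 a ha).1 (Or.inl (h2 b hb).1) (h3 a ha b hb hab)
    · obtain ⟨i, hi⟩ := VB1_exists_one x hx.1 k hdp
      have hk : 0 < k := by
        have h0 : 0 ≤ dp x x := Finset.sum_nonneg (fun i _ => mul_self_nonneg _)
        omega
      have hxx : x i * x i = 1 := by
        rw [← abs_mul_abs_self, hi]; norm_num
      obtain ⟨S, h1, h2, h3, h4⟩ := VD1_back (k - 1) (Finset.univ.erase i) (Function.update x i 0)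
        (fun j hj => by
          have : j = i := by
            by_contra h
            exact hj (Finset.mem_erase.2 ⟨h, Finset.mem_univ j⟩)
          rw [this, Function.update_self])
        (fun j => by
          by_cases hj : j = i
          · rw [hj, Function.update_self]; norm_num
          · rw [Function.update_of_ne hj]; exact hx.1 j)
        (by rw [VD1_dp_upd, hdp, hxx]; push_cast [Nat.cast_sub hk]; ring)
        (by
          rw [VD1_l1_upd, hi, Finset.card_erase_of_mem (Finset.mem_univ i), Finset.card_univ, Fintype.card_fin]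
          have h5 := i.pos
          have h6 := hx.2.2
          push_cast [Nat.cast_sub h5]
          linarith)
      have hs := VD1_cast_one hi
      set u : Fin n → ℝ := Pi.single i ((x i : ℤ) : ℝ) with hu
      have huB : u ∈ rootsB n := Or.inr ⟨i, _, hs, rfl⟩
      have hai : ∀ a ∈ S, a i = 0 := fun a ha => (h2 a ha).2 i (Finset.notMem_erase i _)
      have hui : u i ≠ 0 := by
        rw [hu, Pi.single_eq_same]
        rcases hs with h | h <;> rw [h] <;> norm_num
      have huS : u ∉ S := fun h => hui (hai u h)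
      have horth : ∀ a ∈ S, ∑ j, a j * u j = 0 := by
        intro a ha
        refine Finset.sum_eq_zero (fun j _ => ?_)
        by_cases hj : j = i
        · rw [hj, hai a ha, zero_mul]
        · rw [hu, Pi.single_eq_of_ne hj, mul_zero]
      refine ⟨insert u S, ?_, ⟨?_, ?_⟩, ?_⟩
      · rw [Finset.card_insert_of_notMem huS, h1]; omega
      · intro a ha
        rcases Finset.mem_insert.1 ha with rfl | ha
        · exact huB
        · exact Or.inl (h2 a ha).1
      · intro a ha b hb hab
        rcases Finset.mem_insert.1 ha with rfl | ha <;> rcases Finset.mem_insert.1 hb with rfl | hb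
        · exact absurd rfl hab
        · obtain ⟨g1, g2, g3⟩ := VB1_orth (h2 b hb).1 huB (horth b hb)
          refine ⟨by rwa [add_comm], by rwa [add_comm], ?_⟩
          intro h5
          have h6 := VB1_sub (a := b) (b := u) (horth b hb)
          have h7 : ∑ j, (u - b) j * (u - b) j = ∑ j, (b - u) j * (b - u) j := by
            refine Finset.sum_congr rfl (fun j _ => ?_)
            rw [Pi.sub_apply, Pi.sub_apply]; ring
          have h8 := VD1_norm (h2 b hb).1
          rcases VB1_norm h5 with h9 | h9 <;> rcases VB1_norm huB with h10 | h10 <;>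
            rw [h7, h6, h8, h10] at h9 <;> norm_num at h9
        · exact VB1_orth (h2 a ha).1 huB (horth a ha)
        · exact VB1_orth (h2 a ha).1 (Or.inl (h2 b hb).1) (h3 a ha b hb hab)
      · rw [Finset.sum_insert huS, h4]
        funext j
        rw [Pi.add_apply]
        by_cases hj : j = i
        · rw [hj, hu, Pi.single_eq_same]
          simp [cv]
        · rw [hu, Pi.single_eq_of_ne hj]
          simp [cv, Function.update_of_ne hj]

end Pool.Agent.SOL
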